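import Mathlib

/-!
The (k:k) game on a finite board: from positions to strategies.
-/

set_option autoImplicit false
set_option linter.unusedSectionVars false
set_option linter.unusedVariables false

namespace Pool.Agent.LatKK


open Finset

variable {β : Type*} [DecidableEq β]

/-- points of the board `E` not claimed in the play `h` (a list of moves) -/
def free (E : Finset β) (h : List (Finset β)) : Finset β := E.filter (fun e => ∀ m ∈ h, e ∉ m)

/-- `m` is a legal move after the play `h`: `k` free points, or all of them if fewer remain -/
def IsMove (E : Finset β) (k : ℕ) (h : List (Finset β)) (m : Finset β) : Prop :=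
  m ⊆ free E h ∧ m.card = min k (free E h).card ∧ m.Nonempty

/-- all moves of the play are legal -/
def Legal (E : Finset β) (k : ℕ) (h : List (Finset β)) : Prop :=
  ∀ (i : ℕ) (hi : i < h.length), IsMove E k (h.take i) (h[i]'hi)

/-- the moves number `0, 2, 4, ...` are made according to `σ` -/
def Follows (σ : List (Finset β) → Finset β) (h : List (Finset β)) : Prop :=
  ∀ (i : ℕ) (hi : i < h.length), i % 2 = 0 → h[i]'hi = σ (h.take i)

/-- the points of the board claimed in the moves number `p, p + 2, ...` -/
def own (E : Finset β) (p : ℕ) (h : List (Finset β)) : Finset β :=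
  E.filter (fun e => ∃ (i : ℕ) (hi : i < h.length), i % 2 = p ∧ e ∈ h[i]'hi)

theorem free_append (E : Finset β) (h : List (Finset β)) (m : Finset β) :
    free E (h ++ [m]) = free E h \ m := by
  ext e
  simp only [free, mem_filter, mem_sdiff, List.mem_append, List.mem_singleton]
  constructor
  · rintro ⟨h1, h2⟩
    exact ⟨⟨h1, fun m' hm' => h2 m' (Or.inl hm')⟩, h2 m (Or.inr rfl)⟩
  · rintro ⟨⟨h1, h2⟩, h3⟩
    refine ⟨h1, ?_⟩
    rintro m' (hm' | rfl)
    · exact h2 m' hm'
    · exact h3

theorem getElem_append_lt' (h : List (Finset β)) (m : Finset β) (i : ℕ) (hi : i < h.length)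
    (hi' : i < (h ++ [m]).length) : (h ++ [m])[i]'hi' = h[i]'hi :=
  List.getElem_append_left hi

theorem take_append' (h : List (Finset β)) (m : Finset β) (i : ℕ) (hi : i ≤ h.length) :
    (h ++ [m]).take i = h.take i := List.take_append_of_le_length hi

theorem Legal_append (E : Finset β) (k : ℕ) (h : List (Finset β)) (m : Finset β)
    (H : Legal E k (h ++ [m])) : Legal E k h ∧ IsMove E k h m := by
  constructor
  · intro i hi
    have hi' : i < (h ++ [m]).length := by simp; omega
    have := H i hi'
    rw [getElem_append_lt' h m i hi hi', take_append' h m i hi.le] at this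
    exact this
  · have hi' : h.length < (h ++ [m]).length := by simp
    have := H h.length hi'
    rw [take_append' h m _ le_rfl, List.take_length] at this
    have e : (h ++ [m])[h.length]'hi' = m := by simp
    rw [e] at this
    exact this

theorem Follows_append (σ : List (Finset β) → Finset β) (h : List (Finset β)) (m : Finset β)
    (H : Follows σ (h ++ [m])) : Follows σ h ∧ (h.length % 2 = 0 → m = σ h) := by
  constructor
  · intro i hi hi2
    have hi' : i < (h ++ [m]).length := by simp; omega
    have := H i hi' hi2
    rw [getElem_append_lt' h m i hi hi', take_append' h m i hi.le] at this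
    exact this
  · intro h2
    have hi' : h.length < (h ++ [m]).length := by simp
    have := H h.length hi' h2
    rw [take_append' h m _ le_rfl, List.take_length] at this
    have e : (h ++ [m])[h.length]'hi' = m := by simp
    rw [e] at this
    exact this

theorem own_subset (E : Finset β) (p : ℕ) (h : List (Finset β)) : own E p h ⊆ E :=
  filter_subset _ _

theorem own_append_same (E : Finset β) (p : ℕ) (h : List (Finset β)) (m : Finset β)
    (hp : h.length % 2 = p) (hm : m ⊆ E) : own E p (h ++ [m]) = own E p h ∪ m := by
  ext e
  simp only [own, mem_filter, mem_union]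
  constructor
  · rintro ⟨h1, i, hi, hip, hie⟩
    by_cases hlt : i < h.length
    · rw [getElem_append_lt' h m i hlt hi] at hie
      exact Or.inl ⟨h1, i, hlt, hip, hie⟩
    · right
      have : i = h.length := by simp at hi; omega
      subst this
      have e : (h ++ [m])[h.length]'hi = m := by simp
      rw [e] at hie
      exact hie
  · rintro (⟨h1, i, hi, hip, hie⟩ | h1)
    · have hi' : i < (h ++ [m]).length := by simp; omega
      refine ⟨h1, i, hi', hip, ?_⟩
      rw [getElem_append_lt' h m i hi hi']
      exact hie
    · have hi' : h.length < (h ++ [m]).length := by simp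
      refine ⟨hm h1, h.length, hi', hp, ?_⟩
      have e : (h ++ [m])[h.length]'hi' = m := by simp
      rw [e]
      exact h1

theorem own_append_other (E : Finset β) (p : ℕ) (h : List (Finset β)) (m : Finset β)
    (hp : h.length % 2 ≠ p) : own E p (h ++ [m]) = own E p h := by
  ext e
  simp only [own, mem_filter]
  constructor
  · rintro ⟨h1, i, hi, hip, hie⟩
    by_cases hlt : i < h.length
    · rw [getElem_append_lt' h m i hlt hi] at hie
      exact ⟨h1, i, hlt, hip, hie⟩
    · have : i = h.length := by simp at hi; omega
      subst this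
      exact absurd hip hp
  · rintro ⟨h1, i, hi, hip, hie⟩
    have hi' : i < (h ++ [m]).length := by simp; omega
    refine ⟨h1, i, hi', hip, ?_⟩
    rw [getElem_append_lt' h m i hi hi']
    exact hie

theorem free_eq (E : Finset β) (h : List (Finset β)) :
    free E h = E \ (own E 0 h ∪ own E 1 h) := by
  ext e
  simp only [free, own, mem_filter, mem_sdiff, mem_union, not_or, not_and, not_exists]
  constructor
  · rintro ⟨h1, h2⟩
    exact ⟨h1, fun _ i hi _ hie => h2 _ (List.getElem_mem hi) hie,
      fun _ i hi _ hie => h2 _ (List.getElem_mem hi) hie⟩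
  · rintro ⟨h1, h2, h3⟩
    refine ⟨h1, fun m hm hem => ?_⟩
    obtain ⟨i, hi, rfl⟩ := List.getElem_of_mem hm
    rcases Nat.mod_two_eq_zero_or_one i with h4 | h4
    · exact h2 h1 i hi h4 hem
    · exact h3 h1 i hi h4 hem

theorem free_subset (E : Finset β) (h : List (Finset β)) : free E h ⊆ E := filter_subset _ _

theorem own_disjoint (E : Finset β) (k : ℕ) (h : List (Finset β)) (H : Legal E k h) :
    Disjoint (own E 0 h) (own E 1 h) := by
  induction h using List.reverseRecOn with
  | nil => simp [own]
  | append_singleton h m ih =>
    obtain ⟨h1, h2⟩ := Legal_append E k h m H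
    have hd := ih h1
    have hm : m ⊆ free E h := h2.1
    have hmE : m ⊆ E := hm.trans (free_subset E h)
    rw [free_eq] at hm
    have hm0 : Disjoint m (own E 0 h) := by
      rw [Finset.disjoint_left]
      intro e he he'
      have := hm he
      simp only [mem_sdiff, mem_union, not_or] at this
      exact this.2.1 he'
    have hm1 : Disjoint m (own E 1 h) := by
      rw [Finset.disjoint_left]
      intro e he he'
      have := hm he
      simp only [mem_sdiff, mem_union, not_or] at this
      exact this.2.2 he'
    rcases Nat.mod_two_eq_zero_or_one h.length with h4 | h4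
    · rw [own_append_same E 0 h m h4 hmE, own_append_other E 1 h m (by omega)]
      exact Finset.disjoint_union_left.2 ⟨hd, hm1⟩
    · rw [own_append_same E 1 h m h4 hmE, own_append_other E 0 h m (by omega)]
      exact Finset.disjoint_union_right.2 ⟨hd, hm0.symm⟩

/-- strategies from an invariant of positions -/
theorem exists_strategy (E : Finset β) (k : ℕ) (hk : 1 ≤ k) (Good : Finset β → Finset β → Prop)
    (W : Finset β → Prop) (h0 : Good ∅ ∅)
    (hstep : ∀ M B : Finset β, M ⊆ E → B ⊆ E → Disjoint M B → Good M B →
      (E \ (M ∪ B)).Nonempty → ∃ m : Finset β, m ⊆ E \ (M ∪ B) ∧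
        m.card = min k (E \ (M ∪ B)).card ∧
        ∀ b : Finset β, b ⊆ E \ (M ∪ B ∪ m) → b.card = min k (E \ (M ∪ B ∪ m)).card →
          Good (M ∪ m) (B ∪ b))
    (hend : ∀ M B : Finset β, M ⊆ E → B ⊆ E → Disjoint M B → Good M B →
      E \ (M ∪ B) = ∅ → W M) :
    ∃ σ : List (Finset β) → Finset β,
      (∀ h : List (Finset β), Legal E k h → Follows σ h → h.length % 2 = 0 →
        (free E h).Nonempty → IsMove E k h (σ h)) ∧
      (∀ h : List (Finset β), Legal E k h → Follows σ h → free E h = ∅ → W (own E 0 h)) := by
  classical
  let Q : List (Finset β) → Finset β → Prop := fun h m => m ⊆ free E h ∧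
    m.card = min k (free E h).card ∧
    ∀ b : Finset β, b ⊆ free E h \ m → b.card = min k (free E h \ m).card →
      Good (own E 0 h ∪ m) (own E 1 h ∪ b)
  let σ : List (Finset β) → Finset β := fun h => if H : ∃ m, Q h m then H.choose else ∅
  have hσ1 : ∀ h, (∃ m, Q h m) → Q h (σ h) := by
    intro h h2
    have : σ h = h2.choose := dif_pos h2
    rw [this]
    exact h2.choose_spec
  have hQ : ∀ h, Legal E k h → Good (own E 0 h) (own E 1 h) → (free E h).Nonempty →
      ∃ m, Q h m := by
    intro h hL hG h3
    obtain ⟨m, hm1, hm2, hm3⟩ := hstep (own E 0 h) (own E 1 h) (own_subset E 0 h) (own_subset E 1 h)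
      (own_disjoint E k h hL) hG (by rw [← free_eq]; exact h3)
    have e : E \ (own E 0 h ∪ own E 1 h ∪ m) = free E h \ m := by
      rw [free_eq]
      ext x
      simp only [mem_sdiff, mem_union, not_or]
      tauto
    rw [e] at hm3
    rw [← free_eq] at hm1 hm2
    exact ⟨m, hm1, hm2, hm3⟩
  have hinv : ∀ h : List (Finset β), Legal E k h → Follows σ h →
      (h.length % 2 = 0 → Good (own E 0 h) (own E 1 h)) ∧
      (h.length % 2 = 1 → ∀ b : Finset β, b ⊆ free E h →
        b.card = min k (free E h).card → Good (own E 0 h) (own E 1 h ∪ b)) := by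
    intro h
    induction h using List.reverseRecOn with
    | nil =>
      intro _ _
      refine ⟨fun _ => ?_, fun h1 => by simp at h1⟩
      have e0 : own E 0 ([] : List (Finset β)) = ∅ := by simp [own]
      have e1 : own E 1 ([] : List (Finset β)) = ∅ := by simp [own]
      rw [e0, e1]
      exact h0
    | append_singleton h m ih =>
      intro hL hF
      obtain ⟨hL', hM⟩ := Legal_append E k h m hL
      obtain ⟨hF', hmσ⟩ := Follows_append σ h m hF
      obtain ⟨ih0, ih1⟩ := ih hL' hF'
      have hmE : m ⊆ E := hM.1.trans (free_subset E h)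
      have hlen : (h ++ [m]).length = h.length + 1 := by simp
      rcases Nat.mod_two_eq_zero_or_one h.length with h4 | h4
      · refine ⟨fun h5 => by rw [hlen] at h5; omega, fun _ => ?_⟩
        have hG := ih0 h4
        have hms := hmσ h4
        rw [own_append_same E 0 h m h4 hmE, own_append_other E 1 h m (by omega), free_append]
        have hne : (free E h).Nonempty := hM.2.2.mono hM.1
        have hq := hσ1 h (hQ h hL' hG hne)
        rw [← hms] at hq
        exact hq.2.2
      · refine ⟨fun _ => ?_, fun h5 => by rw [hlen] at h5; omega⟩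
        rw [own_append_other E 0 h m (by omega), own_append_same E 1 h m h4 hmE]
        exact ih1 h4 m hM.1 hM.2.1
  refine ⟨σ, ?_, ?_⟩
  · intro h hL hF h2 hne
    have hG := (hinv h hL hF).1 h2
    have hq := hσ1 h (hQ h hL hG hne)
    refine ⟨hq.1, hq.2.1, ?_⟩
    rw [← Finset.card_pos, hq.2.1]
    have := Finset.card_pos.2 hne
    omega
  · intro h hL hF hfree
    have hd := own_disjoint E k h hL
    have hG : Good (own E 0 h) (own E 1 h) := by
      rcases Nat.mod_two_eq_zero_or_one h.length with h4 | h4
      · exact (hinv h hL hF).1 h4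
      · have := (hinv h hL hF).2 h4 ∅ (by simp) (by rw [hfree]; simp)
        simpa using this
    exact hend (own E 0 h) (own E 1 h) (own_subset E 0 h) (own_subset E 1 h) hd hG
      (by rw [← free_eq]; exact hfree)

end Pool.Agent.LatKK
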