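import Mathlib

/-!
Parallelogram lattices inside unions of blocks.
-/

set_option autoImplicit false
set_option linter.unusedSectionVars false
set_option linter.unusedVariables false

namespace Pool.Agent.LatKK


open Finset

/-- the parameters: `k` strips, `m`, `R`; `q = k m`, `H = 4 k m² R`, `G = m H` -/
def Hh (k m R : ℕ) : ℤ := 4 * (k * m * m * R : ℕ)

/-- the index set of the superpoints -/
noncomputable def UU (k m R : ℕ) : Finset (ℤ × ℤ) := Icc 1 (m * Hh k m R) ×ˢ Icc 1 (Hh k m R)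

/-- the superpoint with index `y`: the translates of `y` by multiples of `(m H, 0)` -/
def XX (k m R : ℕ) (y : ℤ × ℤ) : Finset (ℤ × ℤ) :=
  (range k).image (fun s : ℕ => (y.1 + s * (m * Hh k m R), y.2))

/-- the index set of the winning sets: pairs (point, step) -/
noncomputable def FF (k m R : ℕ) : Finset ((ℤ × ℤ) × (ℤ × ℤ)) :=
  (Ioc ((k * m * m * R : ℕ) : ℤ) (2 * (k * m * m * R : ℕ)) ×ˢ
    Ioc ((k * m * m * R : ℕ) : ℤ) (2 * (k * m * m * R : ℕ))) ×ˢ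
    (Icc (1 : ℤ) R ×ˢ Icc (1 : ℤ) R)

/-- the `j`-th superpoint of the winning set with index `p` -/
def yy (k m R : ℕ) (p : (ℤ × ℤ) × (ℤ × ℤ)) (j : ℤ) : ℤ × ℤ :=
  (p.1.1 + ((-j) % (m : ℤ)) * Hh k m R + j * p.2.1, p.1.2 + j * p.2.2)

/-- the winning set with index `p` -/
noncomputable def SS (k m R : ℕ) (p : (ℤ × ℤ) × (ℤ × ℤ)) : Finset (ℤ × ℤ) :=
  (Ioc (-((k * m : ℕ) : ℤ)) (((k * m : ℕ) - 1 : ℤ) * m)).image (yy k m R p)

lemma card_FF (k m R : ℕ) : (FF k m R).card = (k * m * m * R) ^ 2 * R ^ 2 := by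
  unfold FF
  rw [card_product, card_product, card_product, Int.card_Ioc, Int.card_Icc]
  have e1 : (2 * ((k * m * m * R : ℕ) : ℤ) - ((k * m * m * R : ℕ) : ℤ)).toNat = k * m * m * R := by
    have : (2 * ((k * m * m * R : ℕ) : ℤ) - ((k * m * m * R : ℕ) : ℤ)) = ((k * m * m * R : ℕ) : ℤ) := by ring
    rw [this, Int.toNat_natCast]
  have e2 : ((R : ℤ) + 1 - 1).toNat = R := by
    rw [add_sub_cancel_right, Int.toNat_natCast]
  rw [e1, e2]
  ring

lemma card_UU (k m R : ℕ) : (UU k m R).card = m * (4 * (k * m * m * R)) ^ 2 := by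
  unfold UU Hh
  rw [card_product, Int.card_Icc, Int.card_Icc]
  have e1 : ((m : ℤ) * (4 * ((k * m * m * R : ℕ) : ℤ)) + 1 - 1).toNat = m * (4 * (k * m * m * R)) := by
    have : ((m : ℤ) * (4 * ((k * m * m * R : ℕ) : ℤ)) + 1 - 1) = ((m * (4 * (k * m * m * R)) : ℕ) : ℤ) := by
      push_cast; ring
    rw [this, Int.toNat_natCast]
  have e2 : (4 * ((k * m * m * R : ℕ) : ℤ) + 1 - 1).toNat = 4 * (k * m * m * R) := by
    have : (4 * ((k * m * m * R : ℕ) : ℤ) + 1 - 1) = ((4 * (k * m * m * R) : ℕ) : ℤ) := by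
      push_cast; ring
    rw [this, Int.toNat_natCast]
  rw [e1, e2]
  ring

lemma card_SS_le (k m R : ℕ) (hk : 1 ≤ k) (hm : 1 ≤ m) (p : (ℤ × ℤ) × (ℤ × ℤ)) :
    (SS k m R p).card ≤ m * (k * m + k - 1) := by
  unfold SS
  refine card_image_le.trans ?_
  rw [Int.card_Ioc]
  have h1 : ((((k * m : ℕ) : ℤ) - 1) * m - -((k * m : ℕ) : ℤ)) = ((m * (k * m + k - 1) : ℕ) : ℤ) := by
    have h2 : 1 ≤ k * m + k := by omega
    rw [show ((m * (k * m + k - 1) : ℕ) : ℤ) = (m:ℤ) * ((k * m + k - 1 : ℕ) : ℤ) from Nat.cast_mul _ _,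
      Nat.cast_sub h2]
    push_cast
    ring
  rw [h1, Int.toNat_natCast]

lemma jv833 {K m R j v : ℤ} (hK : 1 ≤ K) (hm : 1 ≤ m) (hR : 1 ≤ R) (hj0 : -(K - 1) ≤ j)
    (hj1 : j ≤ (K - 1) * m) (hv0 : 1 ≤ v) (hv1 : v ≤ R) :
    -((K - 1) * R) ≤ j * v ∧ j * v ≤ (K - 1) * m * R := by
  have hK0 : 0 ≤ K - 1 := by linarith
  have h1 : 0 ≤ (K - 1) * R := mul_nonneg hK0 (by linarith)
  have h2 : 0 ≤ (K - 1) * m * R := mul_nonneg (mul_nonneg hK0 (by linarith)) (by linarith)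
  rcases le_or_gt 0 j with h | h
  · constructor
    · have : 0 ≤ j * v := mul_nonneg h (by linarith)
      linarith
    · calc j * v ≤ j * R := mul_le_mul_of_nonneg_left hv1 h
        _ ≤ (K - 1) * m * R := mul_le_mul_of_nonneg_right hj1 (by linarith)
  · constructor
    · calc -((K - 1) * R) = -(K - 1) * R := by ring
        _ ≤ j * R := mul_le_mul_of_nonneg_right hj0 (by linarith)
        _ ≤ j * v := mul_le_mul_of_nonpos_left hv1 h.le
    · have : j * v ≤ 0 := mul_nonpos_of_nonpos_of_nonneg h.le (by linarith)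
      linarith

lemma SS_subset (k m R : ℕ) (hk : 1 ≤ k) (hm : 1 ≤ m) (hR : 1 ≤ R) :
    ∀ p ∈ FF k m R, SS k m R p ⊆ UU k m R := by
  intro p hp y hy
  obtain ⟨⟨P1, P2⟩, ⟨v1, v2⟩⟩ := p
  unfold FF at hp
  simp only [mem_product, mem_Ioc, mem_Icc] at hp
  obtain ⟨⟨⟨a1, a2⟩, ⟨a3, a4⟩⟩, ⟨b1, b2⟩, ⟨b3, b4⟩⟩ := hp
  unfold SS at hy
  rw [mem_image] at hy
  obtain ⟨j, hj, rfl⟩ := hy
  rw [mem_Ioc] at hj
  unfold yy UU Hh
  simp only [mem_product, mem_Icc]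
  have hmZ : (1 : ℤ) ≤ m := by exact_mod_cast hm
  have hkZ : (1 : ℤ) ≤ k := by exact_mod_cast hk
  have hRZ : (1 : ℤ) ≤ R := by exact_mod_cast hR
  have e0 : 0 ≤ (-j) % (m : ℤ) := Int.emod_nonneg _ (by linarith)
  have e1 : (-j) % (m : ℤ) ≤ m - 1 := by
    have := Int.emod_lt_of_pos (-j) (show (0:ℤ) < m by linarith)
    linarith
  generalize (-j) % (m : ℤ) = e at e0 e1
  push_cast at a1 a2 a3 a4 hj ⊢
  obtain ⟨K, hK⟩ : ∃ K : ℤ, K = (k : ℤ) * m := ⟨_, rfl⟩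
  have hK1 : 1 ≤ K := by rw [hK]; nlinarith
  rw [← hK] at a1 a2 a3 a4 hj ⊢
  obtain ⟨hj0, hj1⟩ := hj
  obtain ⟨c1, c2⟩ := jv833 hK1 hmZ hRZ (by linarith) hj1 b1 b2
  obtain ⟨c3, c4⟩ := jv833 hK1 hmZ hRZ (by linarith) hj1 b3 b4
  obtain ⟨D, hD⟩ : ∃ D : ℤ, D = K * m * R := ⟨_, rfl⟩
  rw [← hD] at a1 a2 a3 a4 ⊢
  have d1 : (K - 1) * R ≤ D := by
    rw [hD]
    have h1 : 0 ≤ K * R * (m - 1) := mul_nonneg (mul_nonneg (by linarith) (by linarith)) (by linarith)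
    nlinarith
  have d2 : (K - 1) * m * R ≤ D := by
    rw [hD]
    have h1 : 0 ≤ (m : ℤ) * R := mul_nonneg (by linarith) (by linarith)
    nlinarith
  have d3 : 0 ≤ D := by
    rw [hD]
    exact mul_nonneg (mul_nonneg (by linarith) (by linarith)) (by linarith)
  have d4 : 0 ≤ e * (4 * D) := mul_nonneg e0 (by linarith)
  have d5 : e * (4 * D) ≤ (m - 1) * (4 * D) := mul_le_mul_of_nonneg_right e1 (by linarith)
  refine ⟨⟨by linarith, ?_⟩, by linarith, by linarith⟩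
  have d6 : ((m : ℤ) - 1) * (4 * D) = m * (4 * D) - 4 * D := by ring
  linarith

lemma j9310_Hh_pos (k m R : ℕ) (hk : 1 ≤ k) (hm : 1 ≤ m) (hR : 1 ≤ R) : 1 ≤ Hh k m R := by
  unfold Hh
  have h : 1 ≤ k * m * m * R := Nat.one_le_iff_ne_zero.mpr (by positivity)
  have h2 : (1 : ℤ) ≤ ((k * m * m * R : ℕ) : ℤ) := by exact_mod_cast h
  linarith

lemma XX_subset (k m R N : ℕ) (hk : 1 ≤ k) (hm : 1 ≤ m) (hR : 1 ≤ R)
    (hN : 4 * k ^ 2 * m ^ 3 * R ≤ N) :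
    ∀ y ∈ UU k m R, XX k m R y ⊆ Icc (1 : ℤ) N ×ˢ Icc (1 : ℤ) N := by
  intro y hy x hx
  have hH := j9310_Hh_pos k m R hk hm hR
  have hm' : (1 : ℤ) ≤ m := by exact_mod_cast hm
  have hk' : (1 : ℤ) ≤ k := by exact_mod_cast hk
  unfold UU at hy
  simp only [mem_product, mem_Icc] at hy
  obtain ⟨⟨h1, h2⟩, h3, h4⟩ := hy
  unfold XX at hx
  simp only [mem_image, mem_range] at hx
  obtain ⟨s, hs, rfl⟩ := hx
  have hs' : (s : ℤ) + 1 ≤ k := by exact_mod_cast hs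
  have hs0 : (0 : ℤ) ≤ s := Int.natCast_nonneg s
  have hG : Hh k m R ≤ m * Hh k m R := by nlinarith
  have hG1 : 1 ≤ m * Hh k m R := by linarith
  have hNG : (k : ℤ) * (m * Hh k m R) ≤ N := by
    have h : ((4 * k ^ 2 * m ^ 3 * R : ℕ) : ℤ) ≤ (N : ℤ) := by exact_mod_cast hN
    refine le_trans (le_of_eq ?_) h
    unfold Hh
    push_cast
    ring
  have hGN : (m : ℤ) * Hh k m R ≤ N := by nlinarith
  have hsG : ((s : ℤ) + 1) * (m * Hh k m R) ≤ k * (m * Hh k m R) :=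
    mul_le_mul_of_nonneg_right hs' (by linarith)
  have hsG0 : 0 ≤ (s : ℤ) * (m * Hh k m R) := mul_nonneg hs0 (by linarith)
  simp only [mem_product, mem_Icc]
  refine ⟨⟨?_, ?_⟩, h3, ?_⟩
  · linarith
  · have : ((s : ℤ) + 1) * (m * Hh k m R) = s * (m * Hh k m R) + m * Hh k m R := by ring
    linarith
  · linarith

lemma card_XX (k m R : ℕ) (hk : 1 ≤ k) (hm : 1 ≤ m) (hR : 1 ≤ R) :
    ∀ y ∈ UU k m R, (XX k m R y).card = k := by
  intro y hy
  have hH := j9310_Hh_pos k m R hk hm hR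
  have hm' : (1 : ℤ) ≤ m := by exact_mod_cast hm
  have hG1 : (m : ℤ) * Hh k m R ≠ 0 := by nlinarith
  unfold XX
  rw [card_image_of_injective, card_range]
  intro s t hst
  simp only [Prod.mk.injEq, and_true] at hst
  have h1 : (s : ℤ) * (m * Hh k m R) = t * (m * Hh k m R) := by linarith
  have h2 := mul_right_cancel₀ hG1 h1
  exact_mod_cast h2

lemma disj_XX (k m R : ℕ) (hk : 1 ≤ k) (hm : 1 ≤ m) (hR : 1 ≤ R) :
    ∀ y ∈ UU k m R, ∀ z ∈ UU k m R, y ≠ z → Disjoint (XX k m R y) (XX k m R z) := by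
  intro y hy z hz hyz
  have hH := j9310_Hh_pos k m R hk hm hR
  have hm' : (1 : ℤ) ≤ m := by exact_mod_cast hm
  have hG1 : 1 ≤ (m : ℤ) * Hh k m R := by nlinarith
  unfold UU at hy hz
  simp only [mem_product, mem_Icc] at hy hz
  obtain ⟨⟨h1, h2⟩, h3, h4⟩ := hy
  obtain ⟨⟨g1, g2⟩, g3, g4⟩ := hz
  rw [Finset.disjoint_left]
  intro x hx hx'
  unfold XX at hx hx'
  simp only [mem_image, mem_range] at hx hx'
  obtain ⟨s, hs, rfl⟩ := hx
  obtain ⟨t, ht, hxt⟩ := hx'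
  simp only [Prod.mk.injEq] at hxt
  obtain ⟨e1, e2⟩ := hxt
  have hst : (s : ℤ) = t := by
    rcases lt_trichotomy (s : ℤ) t with h | h | h
    · exfalso
      have : ((s : ℤ) + 1) * (m * Hh k m R) ≤ t * (m * Hh k m R) :=
        mul_le_mul_of_nonneg_right h (by linarith)
      nlinarith
    · exact h
    · exfalso
      have : ((t : ℤ) + 1) * (m * Hh k m R) ≤ s * (m * Hh k m R) :=
        mul_le_mul_of_nonneg_right h (by linarith)
      nlinarith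
  apply hyz
  rw [hst] at e1
  exact Prod.ext (by linarith) e2.symm

lemma codeg (k m R : ℕ) (hk : 1 ≤ k) (hm : 1 ≤ m) (x y : ℤ × ℤ) (hxy : x ≠ y) :
    ((FF k m R).filter (fun p => x ∈ SS k m R p ∧ y ∈ SS k m R p)).card ≤
      (m * (k * m + k - 1)) ^ 2 := by
  obtain ⟨J, hJ⟩ : ∃ J : Finset ℤ, J = Ioc (-((k * m : ℕ) : ℤ)) (((k * m : ℕ) - 1 : ℤ) * m) :=
    ⟨_, rfl⟩
  have hcard : J.card = m * (k * m + k - 1) := by
    rw [hJ, Int.card_Ioc]
    obtain ⟨k', rfl⟩ : ∃ k', k = k' + 1 := ⟨k - 1, by omega⟩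
    have e : ((k' + 1) * m + (k' + 1) - 1) = (k' + 1) * m + k' := by omega
    rw [e]
    have e2 : (((((k' + 1) * m : ℕ) : ℤ) - 1) * m - -(((k' + 1) * m : ℕ) : ℤ)) =
        ((m * ((k' + 1) * m + k') : ℕ) : ℤ) := by
      push_cast
      ring
    rw [e2, Int.toNat_natCast]
  have hex : ∀ p ∈ (FF k m R).filter (fun p => x ∈ SS k m R p ∧ y ∈ SS k m R p),
      ∃ ij : ℤ × ℤ, ij ∈ J ×ˢ J ∧ yy k m R p ij.1 = x ∧ yy k m R p ij.2 = y := by
    intro p hp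
    obtain ⟨-, hx, hy⟩ := Finset.mem_filter.1 hp
    rw [SS, ← hJ, Finset.mem_image] at hx hy
    obtain ⟨i, hi, hix⟩ := hx
    obtain ⟨j, hj, hjy⟩ := hy
    exact ⟨(i, j), Finset.mem_product.2 ⟨hi, hj⟩, hix, hjy⟩
  choose! f hf using hex
  rw [← hcard, sq, ← Finset.card_product]
  refine Finset.card_le_card_of_injOn f (fun p hp => (hf p hp).1) ?_
  intro p hp p' hp' he
  obtain ⟨-, h1, h2⟩ := hf p hp
  obtain ⟨-, h3, h4⟩ := hf p' hp'
  rw [← he] at h3 h4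
  obtain ⟨⟨P1, P2⟩, ⟨v1, v2⟩⟩ := p
  obtain ⟨⟨Q1, Q2⟩, ⟨w1, w2⟩⟩ := p'
  generalize f ((P1, P2), (v1, v2)) = ij at h1 h2 h3 h4
  obtain ⟨i, j⟩ := ij
  obtain ⟨x1, x2⟩ := x
  obtain ⟨y1, y2⟩ := y
  simp only [yy, Prod.mk.injEq] at h1 h2 h3 h4
  have hij : i - j ≠ 0 := by
    intro h
    have h' : i = j := by linarith
    subst h'
    apply hxy
    rw [← h1.1, ← h1.2, ← h2.1, ← h2.2]
  have e1 : v1 = w1 := by
    apply mul_left_cancel₀ hij
    rw [sub_mul, sub_mul]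
    linarith [h1.1, h2.1, h3.1, h4.1]
  have e2 : v2 = w2 := by
    apply mul_left_cancel₀ hij
    rw [sub_mul, sub_mul]
    linarith [h1.2, h2.2, h3.2, h4.2]
  subst e1 e2
  have e3 : P1 = Q1 := by linarith [h1.1, h3.1]
  have e4 : P2 = Q2 := by linarith [h1.2, h3.2]
  rw [e3, e4]

lemma lattice_mem (k m R : ℕ) (hk : 1 ≤ k) (hm : 1 ≤ m) (hR : 1 ≤ R)
    (p : (ℤ × ℤ) × (ℤ × ℤ)) (M : Finset (ℤ × ℤ)) (hM : ∀ y ∈ SS k m R p, XX k m R y ⊆ M)
    (i j : ℕ) (hi : i < k * m) (hj : j < k * m) :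
    p.1 + (i : ℤ) • ((Hh k m R - p.2.1, - p.2.2) : ℤ × ℤ) +
      (j : ℤ) • ((m * p.2.1, m * p.2.2) : ℤ × ℤ) ∈ M := by
  have hm0 : 0 < m := hm
  obtain ⟨a, s, ha, his⟩ : ∃ a s : ℕ, a < m ∧ i = a + s * m :=
    ⟨i % m, i / m, Nat.mod_lt _ hm0, by rw [mul_comm]; exact (Nat.mod_add_div i m).symm⟩
  have hs : s < k := by
    by_contra h
    push Not at h
    have : k * m ≤ s * m := Nat.mul_le_mul_right m h
    omega
  set J : ℤ := ((j : ℤ) - s) * m - a with hJ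
  have hmz : (0 : ℤ) < m := by exact_mod_cast hm0
  have hmod : (-J) % (m : ℤ) = a := by
    have : -J = (a : ℤ) + m * ((s : ℤ) - j) := by rw [hJ]; ring
    rw [this, Int.add_mul_emod_self_left]
    exact Int.emod_eq_of_lt (by positivity) (by exact_mod_cast ha)
  have hJ1 : -((k * m : ℕ) : ℤ) < J := by
    have h1 : -((k : ℤ) - 1) ≤ (j : ℤ) - s := by
      have : (s : ℤ) + 1 ≤ k := by exact_mod_cast hs
      have : (0 : ℤ) ≤ j := by positivity
      linarith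
    have h2 : -((k : ℤ) - 1) * m ≤ ((j : ℤ) - s) * m := mul_le_mul_of_nonneg_right h1 hmz.le
    have h3 : (a : ℤ) < m := by exact_mod_cast ha
    rw [hJ]
    push_cast
    linarith
  have hJ2 : J ≤ ((k * m : ℕ) - 1 : ℤ) * m := by
    have h1 : (j : ℤ) - s ≤ ((k * m : ℕ) : ℤ) - 1 := by
      have : (j : ℤ) + 1 ≤ ((k * m : ℕ) : ℤ) := by exact_mod_cast hj
      have : (0 : ℤ) ≤ s := by positivity
      linarith
    have h2 : ((j : ℤ) - s) * m ≤ (((k * m : ℕ) : ℤ) - 1) * m :=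
      mul_le_mul_of_nonneg_right h1 hmz.le
    have h3 : (0 : ℤ) ≤ a := by positivity
    rw [hJ]
    linarith
  have hy : yy k m R p J ∈ SS k m R p := by
    unfold SS
    rw [Finset.mem_image]
    exact ⟨J, Finset.mem_Ioc.2 ⟨hJ1, hJ2⟩, rfl⟩
  apply hM _ hy
  unfold XX
  rw [Finset.mem_image]
  refine ⟨s, Finset.mem_range.2 hs, ?_⟩
  unfold yy
  rw [hmod]
  have hiz : (i : ℤ) = a + s * m := by exact_mod_cast his
  apply Prod.ext
  · simp only [Prod.fst_add, Prod.smul_fst, smul_eq_mul]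
    rw [hiz, hJ]
    ring
  · simp only [Prod.snd_add, Prod.smul_snd, smul_eq_mul]
    rw [hiz, hJ]
    ring

lemma lattice_indep (k m R : ℕ) (hk : 1 ≤ k) (hm : 1 ≤ m) (hR : 1 ≤ R)
    (p : (ℤ × ℤ) × (ℤ × ℤ)) (hp : p ∈ FF k m R) :
    LinearIndependent ℤ ![((Hh k m R - p.2.1, - p.2.2) : ℤ × ℤ), (m * p.2.1, m * p.2.2)] := by
  rw [LinearIndependent.pair_iff]
  intro α β h
  have hv2 : 1 ≤ p.2.2 := by
    unfold FF at hp
    rw [Finset.mem_product, Finset.mem_product, Finset.mem_product] at hp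
    exact (Finset.mem_Icc.1 hp.2.2).1
  have hH : 0 < Hh k m R := by
    unfold Hh
    positivity
  have hmz : (0 : ℤ) < m := by exact_mod_cast hm
  have h1 := congrArg Prod.fst h
  have h2 := congrArg Prod.snd h
  simp only [Prod.fst_add, Prod.smul_fst, smul_eq_mul, Prod.fst_zero] at h1
  simp only [Prod.snd_add, Prod.smul_snd, smul_eq_mul, Prod.snd_zero] at h2
  have h3 : p.2.2 * (β * m - α) = 0 := by linarith
  have h4 : β * m - α = 0 := by
    rcases mul_eq_zero.1 h3 with h | h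
    · omega
    · exact h
  have h5 : α = β * m := by linarith
  rw [h5] at h1
  have h6 : β * (m * Hh k m R) = 0 := by linarith
  have h7 : β = 0 := by
    rcases mul_eq_zero.1 h6 with h | h
    · exact h
    · exact absurd h (mul_pos hmz hH).ne'
  refine ⟨?_, h7⟩
  rw [h5, h7, zero_mul]

end Pool.Agent.LatKK
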