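import Mathlib

/-!
The choice of the parameters.
-/

set_option autoImplicit false
set_option linter.unusedSectionVars false
set_option linter.unusedVariables false

namespace Pool.Agent.LatKK


/-- the parameters for large `N` -/
lemma params (k : ℕ) (hk : 2 ≤ k) (c : ℝ) (hc : 0 < c)
    (h : c ^ 2 * Real.logb 2 ((k : ℝ) + 1) < 2 * k) :
    ∃ N₀ : ℕ, ∀ N : ℕ, N₀ ≤ N → ∃ m R : ℕ, 1 ≤ m ∧ 1 ≤ R ∧
      c * Real.sqrt (Real.logb 2 N) ≤ ((k * m : ℕ) : ℝ) ∧ 4 * k ^ 2 * m ^ 3 * R ≤ N ∧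
      16 * k * (k + 1) * m * (m * (k * m + k - 1)) ^ 2 * (k + 1) ^ (m * (k * m + k - 1)) <
        R ^ 2 := by
  have hk0 : (0 : ℝ) < k := by
    have : 0 < k := by omega
    exact_mod_cast this
  have hk1 : (1 : ℝ) ≤ k := by
    have : 1 ≤ k := by omega
    exact_mod_cast this
  have hl2 : 0 < Real.log 2 := Real.log_pos (by norm_num)
  set lk : ℝ := Real.log ((k : ℝ) + 1) with hlk
  have hlk0 : 0 < lk := Real.log_pos (by linarith)
  have hc2 : c ^ 2 * lk < 2 * k * Real.log 2 := by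
    have h1 : Real.logb 2 ((k : ℝ) + 1) * Real.log 2 = lk := by
      rw [Real.logb, div_mul_cancel₀ _ hl2.ne']
    have h2 := mul_lt_mul_of_pos_right h hl2
    rw [mul_assoc, h1] at h2
    exact h2
  set δ : ℝ := 2 * Real.log 2 - c ^ 2 * lk / k with hδ
  have hδ0 : 0 < δ := by
    rw [hδ, sub_pos, div_lt_iff₀ hk0]
    linarith
  set C0 : ℝ := 1024 * (k : ℝ) ^ 7 * (k + 1) with hC0
  have hC00 : 0 < C0 := by positivity
  set α : ℝ := 11 * c / k + 3 * c * lk with hα
  set β : ℝ := C0 + 11 + 2 * k * lk with hβ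
  have hα0 : 0 < α := by positivity
  have hβ0 : 0 < β := by positivity
  set S0 : ℝ := (α + β) / δ + 1 with hS0
  set S1 : ℝ := (8 * (k : ℝ) ^ 2 + 3 + 3 * c / k) / Real.log 2 + 1 with hS1
  set S : ℝ := max S0 S1 with hS
  have hS01 : 1 ≤ S0 := by
    rw [hS0]
    have : 0 < (α + β) / δ := by positivity
    linarith
  have hSpos : 1 ≤ S := hS01.trans (le_max_left _ _)
  refine ⟨⌈(2 : ℝ) ^ (S ^ 2)⌉₊, fun N hN => ?_⟩
  have hNr : (2 : ℝ) ^ (S ^ 2) ≤ N := Nat.ceil_le.1 hN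
  have hNpos : (0 : ℝ) < N := lt_of_lt_of_le (Real.rpow_pos_of_pos (by norm_num) _) hNr
  set L : ℝ := Real.logb 2 N with hL
  have hLS : S ^ 2 ≤ L := by
    rw [hL, Real.le_logb_iff_rpow_le (by norm_num) hNpos]
    exact hNr
  set s : ℝ := Real.sqrt L with hs
  have hL0 : 0 ≤ L := le_trans (sq_nonneg _) hLS
  have hsS : S ≤ s := by
    rw [hs]
    exact Real.le_sqrt_of_sq_le hLS
  have hs2 : s ^ 2 = L := Real.sq_sqrt hL0
  have hs1 : 1 ≤ s := hSpos.trans hsS
  have hs0 : 0 < s := by linarith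
  have hNexp : (N : ℝ) = Real.exp (s ^ 2 * Real.log 2) := by
    rw [hs2, hL, Real.logb, div_mul_cancel₀ _ hl2.ne', Real.exp_log hNpos]
  set m : ℕ := ⌈c * s / k⌉₊ with hm
  have hcs : 0 < c * s / k := by positivity
  have hm1 : 1 ≤ m := Nat.ceil_pos.2 hcs
  have hmr1 : (1 : ℝ) ≤ m := by exact_mod_cast hm1
  set M : ℝ := c * s / k + 1 with hM
  have hmM : (m : ℝ) ≤ M := (Nat.ceil_lt_add_one hcs.le).le
  have hM1 : 1 ≤ M := by linarith
  have hM0 : 0 < M := by linarith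
  have hkM : (k : ℝ) * M = c * s + k := by
    rw [hM]
    field_simp
  -- the two growth facts
  have g1 : α * s + β < δ * s ^ 2 := by
    have h1 : S0 ≤ s := (le_max_left _ _).trans hsS
    have h2 : (α + β) < δ * s := by
      have : (α + β) / δ < s := by linarith
      rw [div_lt_iff₀ hδ0] at this
      linarith
    have h3 : (α + β) * s < δ * s * s := mul_lt_mul_of_pos_right h2 hs0
    nlinarith [mul_le_mul_of_nonneg_left hs1 hβ0.le]
  have g2 : 8 * (k : ℝ) ^ 2 + 3 * M ≤ s ^ 2 * Real.log 2 := by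
    have h1 : S1 ≤ s := (le_max_right _ _).trans hsS
    have h2 : (8 * (k : ℝ) ^ 2 + 3 + 3 * c / k) ≤ s * Real.log 2 := by
      have : (8 * (k : ℝ) ^ 2 + 3 + 3 * c / k) / Real.log 2 ≤ s := by linarith
      rw [div_le_iff₀ hl2] at this
      exact this
    have h3 := mul_le_mul_of_nonneg_right h2 hs0.le
    have h4 : (8 * (k : ℝ) ^ 2 + 3) * 1 ≤ (8 * (k : ℝ) ^ 2 + 3) * s :=
      mul_le_mul_of_nonneg_left hs1 (by positivity)
    have h5 : 3 * M = 3 * c / k * s + 3 := by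
      rw [hM]
      ring
    rw [h5]
    nlinarith
  have hMexp : M + 1 ≤ Real.exp M := Real.add_one_le_exp M
  have hMexp' : M ≤ Real.exp M := by linarith
  -- the size of R
  have hden : (0 : ℝ) < 4 * (k : ℝ) ^ 2 * (m : ℝ) ^ 3 := by positivity
  have hm3 : (m : ℝ) ^ 3 ≤ M ^ 3 := pow_le_pow_left₀ (by positivity) hmM 3
  have hN8 : 8 * (k : ℝ) ^ 2 * M ^ 3 ≤ N := by
    have h1 : 8 * (k : ℝ) ^ 2 ≤ Real.exp (8 * (k : ℝ) ^ 2) := by
      have := Real.add_one_le_exp (8 * (k : ℝ) ^ 2)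
      linarith
    have h2 : M ^ 3 ≤ Real.exp (3 * M) := by
      have : Real.exp (3 * M) = Real.exp M ^ 3 := by
        rw [← Real.exp_nat_mul]
        norm_num
      rw [this]
      exact pow_le_pow_left₀ hM0.le hMexp' 3
    calc 8 * (k : ℝ) ^ 2 * M ^ 3 ≤ Real.exp (8 * (k : ℝ) ^ 2) * Real.exp (3 * M) :=
          mul_le_mul h1 h2 (by positivity) (Real.exp_pos _).le
      _ = Real.exp (8 * (k : ℝ) ^ 2 + 3 * M) := (Real.exp_add _ _).symm
      _ ≤ Real.exp (s ^ 2 * Real.log 2) := Real.exp_le_exp.2 g2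
      _ = N := hNexp.symm
  set R : ℕ := N / (4 * k ^ 2 * m ^ 3) with hR
  have hdn : 0 < 4 * k ^ 2 * m ^ 3 := by
    have : 0 < k := by omega
    positivity
  have hRlow : (N : ℝ) / (8 * (k : ℝ) ^ 2 * M ^ 3) ≤ R := by
    have h1 : (N : ℝ) / (4 * (k : ℝ) ^ 2 * (m : ℝ) ^ 3) < R + 1 := by
      rw [div_lt_iff₀ hden]
      have := Nat.lt_mul_div_succ N hdn
      have h2 : (N : ℝ) < ((4 * k ^ 2 * m ^ 3 * (N / (4 * k ^ 2 * m ^ 3) + 1) : ℕ) : ℝ) := by
        exact_mod_cast this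
      rw [← hR] at h2
      push_cast at h2
      linarith
    have h2 : 2 ≤ (N : ℝ) / (4 * (k : ℝ) ^ 2 * (m : ℝ) ^ 3) := by
      rw [le_div_iff₀ hden]
      have : 8 * (k : ℝ) ^ 2 * (m : ℝ) ^ 3 ≤ 8 * (k : ℝ) ^ 2 * M ^ 3 :=
        mul_le_mul_of_nonneg_left hm3 (by positivity)
      linarith
    have h3 : (N : ℝ) / (8 * (k : ℝ) ^ 2 * M ^ 3) ≤
        (N : ℝ) / (4 * (k : ℝ) ^ 2 * (m : ℝ) ^ 3) / 2 := by
      rw [div_div]
      apply div_le_div_of_nonneg_left hNpos.le (by positivity)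
      have : 8 * (k : ℝ) ^ 2 * (m : ℝ) ^ 3 ≤ 8 * (k : ℝ) ^ 2 * M ^ 3 :=
        mul_le_mul_of_nonneg_left hm3 (by positivity)
      linarith
    linarith
  have hR1 : 1 ≤ R := by
    have h1 : (1 : ℝ) ≤ (N : ℝ) / (8 * (k : ℝ) ^ 2 * M ^ 3) := by
      rw [le_div_iff₀ (by positivity)]
      linarith
    have h2 : (1 : ℝ) ≤ R := h1.trans hRlow
    exact_mod_cast h2
  refine ⟨m, R, hm1, hR1, ?_, Nat.mul_div_le N _, ?_⟩
  · have h1 : c * s / k ≤ m := Nat.le_ceil _
    rw [div_le_iff₀ hk0] at h1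
    push_cast
    linarith
  · set n : ℕ := m * (k * m + k - 1) with hn
    have hnle : (n : ℝ) ≤ k * M * (M + 1) := by
      have h1 : n ≤ m * (k * m + k) := Nat.mul_le_mul_left _ (Nat.sub_le _ _)
      have h2 : (n : ℝ) ≤ m * (k * m + k) := by exact_mod_cast h1
      have h3 : (m : ℝ) * (k * m + k) = k * (m * (m + 1)) := by ring
      have h4 : (m : ℝ) * (m + 1) ≤ M * (M + 1) :=
        mul_le_mul hmM (by linarith) (by positivity) hM0.le
      calc (n : ℝ) ≤ k * (m * (m + 1)) := by rw [← h3]; exact h2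
        _ ≤ k * (M * (M + 1)) := mul_le_mul_of_nonneg_left h4 hk0.le
        _ = k * M * (M + 1) := by ring
    have hn0 : (0 : ℝ) ≤ n := Nat.cast_nonneg n
    have hpow : ((k : ℝ) + 1) ^ n = Real.exp (n * lk) := by
      rw [Real.exp_nat_mul, hlk, Real.exp_log (by positivity)]
    have hpow' : ((k : ℝ) + 1) ^ n ≤ Real.exp (k * M * (M + 1) * lk) := by
      rw [hpow]
      exact Real.exp_le_exp.2 (mul_le_mul_of_nonneg_right hnle hlk0.le)
    -- main inequality
    have main : C0 * (M ^ 9 * (M + 1) ^ 2) * Real.exp (k * M * (M + 1) * lk) < (N : ℝ) ^ 2 := by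
      have h1 : C0 ≤ Real.exp C0 := by
        have := Real.add_one_le_exp C0
        linarith
      have h2 : M ^ 9 * (M + 1) ^ 2 ≤ Real.exp (11 * M) := by
        have : Real.exp (11 * M) = Real.exp M ^ 9 * Real.exp M ^ 2 := by
          rw [← pow_add, ← Real.exp_nat_mul]
          norm_num
        rw [this]
        exact mul_le_mul (pow_le_pow_left₀ hM0.le hMexp' 9)
          (pow_le_pow_left₀ (by positivity) hMexp 2) (by positivity) (by positivity)
      have h3 : (N : ℝ) ^ 2 = Real.exp (2 * (s ^ 2 * Real.log 2)) := by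
        rw [hNexp, ← Real.exp_nat_mul]
        norm_num
      rw [h3]
      calc C0 * (M ^ 9 * (M + 1) ^ 2) * Real.exp (k * M * (M + 1) * lk)
          ≤ (Real.exp C0 * Real.exp (11 * M)) * Real.exp (k * M * (M + 1) * lk) :=
            mul_le_mul_of_nonneg_right (mul_le_mul h1 h2 (by positivity) (Real.exp_pos _).le)
              (Real.exp_pos _).le
        _ = Real.exp (C0 + 11 * M + k * M * (M + 1) * lk) := by
            rw [← Real.exp_add, ← Real.exp_add]
        _ < Real.exp (2 * (s ^ 2 * Real.log 2)) := by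
            rw [Real.exp_lt_exp]
            have e1 : (k : ℝ) * M * (M + 1) = c ^ 2 / k * s ^ 2 + 3 * c * s + 2 * k := by
              rw [hkM, hM]
              field_simp
              ring
            have e2 : C0 + 11 * M + k * M * (M + 1) * lk =
                (α * s + β) + c ^ 2 * lk / k * s ^ 2 := by
              rw [e1, hα, hβ, hM]
              ring
            rw [e2]
            have e3 : δ * s ^ 2 = 2 * Real.log 2 * s ^ 2 - c ^ 2 * lk / k * s ^ 2 := by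
              rw [hδ]
              ring
            linarith
    -- lower bound of the right-hand side
    have hR2 : (N : ℝ) ^ 2 / (64 * (k : ℝ) ^ 4 * M ^ 6) ≤ (R : ℝ) ^ 2 := by
      have h1 : (N : ℝ) ^ 2 / (64 * (k : ℝ) ^ 4 * M ^ 6) =
          ((N : ℝ) / (8 * (k : ℝ) ^ 2 * M ^ 3)) ^ 2 := by
        rw [div_pow]
        congr 1
        ring
      rw [h1]
      exact pow_le_pow_left₀ (by positivity) hRlow 2
    have hlhs : 16 * (k : ℝ) * (k + 1) * m * (n : ℝ) ^ 2 * ((k : ℝ) + 1) ^ n <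
        (N : ℝ) ^ 2 / (64 * (k : ℝ) ^ 4 * M ^ 6) := by
      rw [lt_div_iff₀ (by positivity)]
      refine lt_of_le_of_lt ?_ main
      have h1 : (n : ℝ) ^ 2 ≤ (k * M * (M + 1)) ^ 2 := pow_le_pow_left₀ hn0 hnle 2
      have h2 : 16 * (k : ℝ) * (k + 1) * m ≤ 16 * (k : ℝ) * (k + 1) * M :=
        mul_le_mul_of_nonneg_left hmM (by positivity)
      have h3 : 16 * (k : ℝ) * (k + 1) * m * (n : ℝ) ^ 2 ≤
          16 * (k : ℝ) * (k + 1) * M * (k * M * (M + 1)) ^ 2 :=
        mul_le_mul h2 h1 (by positivity) (by positivity)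
      have h4 : 16 * (k : ℝ) * (k + 1) * m * (n : ℝ) ^ 2 * ((k : ℝ) + 1) ^ n ≤
          16 * (k : ℝ) * (k + 1) * M * (k * M * (M + 1)) ^ 2 *
            Real.exp (k * M * (M + 1) * lk) :=
        mul_le_mul h3 hpow' (by positivity) (by positivity)
      calc 16 * (k : ℝ) * (k + 1) * m * (n : ℝ) ^ 2 * ((k : ℝ) + 1) ^ n *
            (64 * (k : ℝ) ^ 4 * M ^ 6)
          ≤ 16 * (k : ℝ) * (k + 1) * M * (k * M * (M + 1)) ^ 2 *
            Real.exp (k * M * (M + 1) * lk) * (64 * (k : ℝ) ^ 4 * M ^ 6) :=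
            mul_le_mul_of_nonneg_right h4 (by positivity)
        _ = C0 * (M ^ 9 * (M + 1) ^ 2) * Real.exp (k * M * (M + 1) * lk) := by
            rw [hC0]
            ring
    have hfin := lt_of_lt_of_le hlhs hR2
    have : ((16 * k * (k + 1) * m * n ^ 2 * (k + 1) ^ n : ℕ) : ℝ) < ((R ^ 2 : ℕ) : ℝ) := by
      push_cast
      exact hfin
    exact_mod_cast this

end Pool.Agent.LatKK
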