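import Mathlib

/-!
A criterion for Maker in the (1:k) game with small codegree: one round.
-/

set_option autoImplicit false
set_option linter.unusedSectionVars false
set_option linter.unusedVariables false

namespace Pool.Agent.LatKK


open Finset

variable {V ι : Type*} [DecidableEq V] [DecidableEq ι]

/-- value of a set with `i` points missing -/
noncomputable def phi (r : ℝ) (i : ℕ) : ℝ := (r⁻¹ ^ i + r⁻¹ ^ (2 * i)) / 2

/-- potential of the position with Maker's set `M` and Breaker's set `B` -/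
noncomputable def LL (F : Finset ι) (S : ι → Finset V) (r : ℝ) (M B : Finset V) : ℝ :=
  ∑ i ∈ F, if Disjoint (S i) B then phi r (S i \ M).card else 0

theorem phi_step_h411 (k : ℕ) (n : ℕ) :
    phi ((k:ℝ)+1) n - phi ((k:ℝ)+1) (n+1) = (k:ℝ) * phi ((k:ℝ)+1) (n+1) +
      ((k:ℝ)+1) * k * (((k:ℝ)+1)⁻¹ ^ (n+1))^2 / 2 := by
  have hr : (0:ℝ) < (k:ℝ) + 1 := by positivity
  obtain ⟨r, hrd⟩ : ∃ r, r = (k:ℝ) + 1 := ⟨_, rfl⟩
  rw [← hrd] at hr ⊢
  have hk : (k : ℝ) = r - 1 := by linarith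
  rw [hk]
  have h1 : r⁻¹ ^ n = r * r⁻¹ ^ (n+1) := by
    rw [pow_succ]; field_simp
  have h2 : r⁻¹ ^ (2 * n) = (r * r⁻¹ ^ (n+1)) ^ 2 := by
    rw [← h1, ← pow_mul, mul_comm]
  have h3 : r⁻¹ ^ (2 * (n+1)) = (r⁻¹ ^ (n+1)) ^ 2 := by
    rw [← pow_mul, mul_comm]
  unfold phi
  rw [h1, h2, h3]
  ring

theorem phi_le_h411 (k : ℕ) (n : ℕ) :
    0 ≤ phi ((k:ℝ)+1) n ∧ phi ((k:ℝ)+1) n ≤ ((k:ℝ)+1) * ((k:ℝ)+1)⁻¹ ^ (n+1) := by
  have hr : (1:ℝ) ≤ (k:ℝ) + 1 := by
    have : (0:ℝ) ≤ k := by positivity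
    linarith
  obtain ⟨r, hrd⟩ : ∃ r, r = (k:ℝ) + 1 := ⟨_, rfl⟩
  rw [← hrd] at hr ⊢
  have hr0 : 0 < r := by linarith
  have h1 : r * r⁻¹ ^ (n+1) = r⁻¹ ^ n := by
    rw [pow_succ]; field_simp
  have h0 : 0 ≤ r⁻¹ := by positivity
  have h4 : r⁻¹ ≤ 1 := inv_le_one_of_one_le₀ hr
  have h2 : r⁻¹ ^ (2 * n) ≤ r⁻¹ ^ n := pow_le_pow_of_le_one h0 h4 (by omega)
  rw [h1]
  unfold phi
  constructor
  · positivity
  · linarith

/-- one round -/
theorem round_step (F : Finset ι) (S : ι → Finset V) (k : ℕ) (hk : 1 ≤ k) (Δ : ℝ) (hΔ : 0 < Δ)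
    (hcod : ∀ x y : V, x ≠ y → ((F.filter (fun i => x ∈ S i ∧ y ∈ S i)).card : ℝ) ≤ Δ)
    (M B R : Finset V) (hMB : Disjoint M B) (hR : R.Nonempty) (hRM : Disjoint R M)
    (hRB : Disjoint R B) (hcov : ∀ i ∈ F, ∀ v ∈ S i, v ∈ R ∨ v ∈ M ∨ v ∈ B) :
    ∃ x ∈ R, ∀ Y : Finset V, Y.card ≤ k → x ∉ Y → Disjoint Y M →
      LL F S ((k : ℝ) + 1) M B - (k : ℝ) * ((k : ℝ) + 1) * Δ / 2 ≤
        LL F S ((k : ℝ) + 1) (insert x M) (B ∪ Y) := by
  classical
  obtain ⟨r, hrd⟩ : ∃ r, r = (k:ℝ) + 1 := ⟨_, rfl⟩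
  obtain ⟨A, hA⟩ : ∃ A : Finset ι, A = F.filter (fun i => Disjoint (S i) B) := ⟨_, rfl⟩
  obtain ⟨rem, hrem⟩ : ∃ rem : ι → ℕ, ∀ i, rem i = (S i \ M).card := ⟨_, fun _ => rfl⟩
  obtain ⟨G, hG⟩ : ∃ G : V → ℝ, ∀ x, G x = ∑ i ∈ A, if x ∈ S i then
    (phi r (rem i - 1) - phi r (rem i)) else 0 := ⟨_, fun _ => rfl⟩
  have hk0 : (1:ℝ) ≤ k := by exact_mod_cast hk
  have hr0 : 0 < r := by rw [hrd]; positivity
  have hphi0 : ∀ n, 0 ≤ phi r n := fun n => by rw [hrd]; exact (phi_le_h411 k n).1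
  have hremp : ∀ i v, v ∈ S i → v ∉ M → 1 ≤ rem i := by
    intro i v h1 h2
    rw [hrem]
    exact Finset.card_pos.2 ⟨v, Finset.mem_sdiff.2 ⟨h1, h2⟩⟩
  have hstep : ∀ n, 1 ≤ n → phi r (n - 1) - phi r n = k * phi r n + r * k * (r⁻¹ ^ n) ^ 2 / 2 := by
    intro n hn
    obtain ⟨m, rfl⟩ : ∃ m, n = m + 1 := ⟨n - 1, by omega⟩
    rw [Nat.add_sub_cancel, hrd]
    exact phi_step_h411 k m
  have hphile : ∀ n, 1 ≤ n → phi r (n - 1) ≤ r * r⁻¹ ^ n := by
    intro n hn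
    obtain ⟨m, rfl⟩ : ∃ m, n = m + 1 := ⟨n - 1, by omega⟩
    rw [Nat.add_sub_cancel, hrd]
    exact (phi_le_h411 k m).2
  have hRM' : ∀ y ∈ R, y ∉ M := fun y h1 h2 => (Finset.disjoint_left.1 hRM) h1 h2
  have hGy : ∀ y ∈ R, G y = ∑ i ∈ A, if y ∈ S i then
      (k * phi r (rem i) + r * k * (r⁻¹ ^ (rem i)) ^ 2 / 2) else 0 := by
    intro y hy
    rw [hG]
    refine Finset.sum_congr rfl fun i hi => ?_
    by_cases h : y ∈ S i
    · rw [if_pos h, if_pos h, hstep _ (hremp i y h (hRM' y hy))]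
    · rw [if_neg h, if_neg h]
  have hG0 : ∀ y ∈ R, 0 ≤ G y := by
    intro y hy
    rw [hGy y hy]
    refine Finset.sum_nonneg fun i hi => ?_
    split_ifs
    · have := hphi0 (rem i)
      positivity
    · exact le_rfl
  obtain ⟨x, hxR, hxmax⟩ := Finset.exists_max_image R G hR
  refine ⟨x, hxR, fun Y hYk hxY hYM => ?_⟩
  have hxM := hRM' x hxR
  rw [← hrd]
  -- new remaining
  obtain ⟨nr, hnr⟩ : ∃ nr : ι → ℕ, ∀ i, nr i = (S i \ insert x M).card := ⟨_, fun _ => rfl⟩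
  have hnr1 : ∀ i, x ∈ S i → nr i = rem i - 1 := by
    intro i hi
    rw [hnr, hrem, Finset.sdiff_insert, Finset.card_erase_of_mem (Finset.mem_sdiff.2 ⟨hi, hxM⟩)]
  have hnr2 : ∀ i, x ∉ S i → nr i = rem i := by
    intro i hi
    rw [hnr, hrem, Finset.sdiff_insert_of_notMem hi]
  have hold : LL F S r M B = ∑ i ∈ A, phi r (rem i) := by
    unfold LL
    rw [hA, Finset.sum_filter]
    refine Finset.sum_congr rfl fun i hi => ?_
    rw [hrem]
  have hnew : LL F S r (insert x M) (B ∪ Y) = ∑ i ∈ A, if Disjoint (S i) Y then phi r (nr i) else 0 := by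
    unfold LL
    rw [hA, Finset.sum_filter]
    refine Finset.sum_congr rfl fun i hi => ?_
    rw [hnr]
    by_cases h1 : Disjoint (S i) B
    · by_cases h2 : Disjoint (S i) Y
      · rw [if_pos (Finset.disjoint_union_right.2 ⟨h1, h2⟩), if_pos h1, if_pos h2]
      · rw [if_neg (fun h => h2 (Finset.disjoint_union_right.1 h).2), if_pos h1, if_neg h2]
    · rw [if_neg (fun h => h1 (Finset.disjoint_union_right.1 h).1), if_neg h1]
  obtain ⟨Y', hY'⟩ : ∃ Y' : Finset V, Y' = Y ∩ R := ⟨_, rfl⟩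
  have hY'k : (Y'.card : ℝ) ≤ k := by
    have : Y'.card ≤ k := by
      rw [hY']
      exact (Finset.card_le_card Finset.inter_subset_left).trans hYk
    exact_mod_cast this
  have hlow : ∀ i ∈ A, phi r (nr i) - ∑ y ∈ Y', (if y ∈ S i then phi r (nr i) else 0) ≤
      if Disjoint (S i) Y then phi r (nr i) else 0 := by
    intro i hi
    have hnn : ∀ y ∈ Y', 0 ≤ (if y ∈ S i then phi r (nr i) else 0) := by
      intro y _
      split_ifs
      · exact hphi0 _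
      · exact le_rfl
    by_cases h : Disjoint (S i) Y
    · rw [if_pos h]
      have := Finset.sum_nonneg hnn
      linarith
    · rw [if_neg h]
      rw [Finset.not_disjoint_iff] at h
      obtain ⟨y, hy1, hy2⟩ := h
      rw [hA, Finset.mem_filter] at hi
      have hyR : y ∈ R := by
        rcases hcov i hi.1 y hy1 with h3 | h3 | h3
        · exact h3
        · exact ((Finset.disjoint_left.1 hYM) hy2 h3).elim
        · exact ((Finset.disjoint_left.1 hi.2) hy1 h3).elim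
      have hyY' : y ∈ Y' := by
        rw [hY']
        exact Finset.mem_inter.2 ⟨hy2, hyR⟩
      have h4 := Finset.single_le_sum hnn hyY'
      rw [if_pos hy1] at h4
      linarith
  have hsum1 : ∑ i ∈ A, phi r (nr i) = ∑ i ∈ A, phi r (rem i) + G x := by
    rw [hG, ← Finset.sum_add_distrib]
    refine Finset.sum_congr rfl fun i hi => ?_
    by_cases h : x ∈ S i
    · rw [if_pos h, hnr1 i h]; ring
    · rw [if_neg h, hnr2 i h]; ring
  have hmain : ∑ i ∈ A, phi r (rem i) + G x -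
      ∑ y ∈ Y', ∑ i ∈ A, (if y ∈ S i then phi r (nr i) else 0) ≤
      LL F S r (insert x M) (B ∪ Y) := by
    rw [hnew, ← hsum1, Finset.sum_comm, ← Finset.sum_sub_distrib]
    exact Finset.sum_le_sum hlow
  have hY'R : ∀ y ∈ Y', y ∈ R := by
    intro y hy
    rw [hY'] at hy
    exact (Finset.mem_inter.1 hy).2
  have hY'x : ∀ y ∈ Y', x ≠ y := by
    intro y hy he
    rw [hY'] at hy
    exact hxY (he ▸ (Finset.mem_inter.1 hy).1)
  -- bound each H y
  have hHy : ∀ y ∈ Y', ∑ i ∈ A, (if y ∈ S i then phi r (nr i) else 0) ≤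
      G y / k + r * Δ / 2 := by
    intro y hy
    have h1 : ∀ i ∈ A, (if y ∈ S i then phi r (nr i) else 0) ≤
        (if y ∈ S i then (k * phi r (rem i) + r * k * (r⁻¹ ^ (rem i)) ^ 2 / 2) else 0) / k +
        (if x ∈ S i ∧ y ∈ S i then r / 2 else 0) := by
      intro i hi
      by_cases hyi : y ∈ S i
      · rw [if_pos hyi, if_pos hyi]
        have hre := hremp i y hyi (hRM' y (hY'R y hy))
        have e1 : (k * phi r (rem i) + r * k * (r⁻¹ ^ (rem i)) ^ 2 / 2) / k =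
            phi r (rem i) + r * (r⁻¹ ^ (rem i)) ^ 2 / 2 := by
          field_simp
        rw [e1]
        by_cases hxi : x ∈ S i
        · rw [if_pos ⟨hxi, hyi⟩, hnr1 i hxi]
          have h2 := hphile (rem i) hre
          have h3 := hphi0 (rem i)
          obtain ⟨t, ht⟩ : ∃ t, t = r⁻¹ ^ (rem i) := ⟨_, rfl⟩
          rw [← ht] at h2 ⊢
          nlinarith [mul_nonneg hr0.le (sq_nonneg (t - 1))]
        · rw [if_neg (fun h => hxi h.1), hnr2 i hxi]
          have : 0 ≤ r * (r⁻¹ ^ (rem i)) ^ 2 / 2 := by positivity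
          linarith
      · rw [if_neg hyi, if_neg hyi, if_neg (fun h => hyi h.2)]
        simp
    refine (Finset.sum_le_sum h1).trans ?_
    rw [Finset.sum_add_distrib, ← Finset.sum_div, ← hGy y (hY'R y hy)]
    have h2 : ∑ i ∈ A, (if x ∈ S i ∧ y ∈ S i then r / 2 else 0) ≤ r * Δ / 2 := by
      rw [← Finset.sum_filter, Finset.sum_const, nsmul_eq_mul]
      have h3 : ((A.filter (fun i => x ∈ S i ∧ y ∈ S i)).card : ℝ) ≤ Δ := by
        refine le_trans ?_ (hcod x y (hY'x y hy))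
        have : A ⊆ F := by rw [hA]; exact Finset.filter_subset _ _
        exact_mod_cast Finset.card_le_card (Finset.filter_subset_filter _ this)
      have h4 : 0 ≤ r / 2 := by positivity
      calc _ ≤ Δ * (r / 2) := mul_le_mul_of_nonneg_right h3 h4
        _ = _ := by ring
    linarith
  have hsumH : ∑ y ∈ Y', ∑ i ∈ A, (if y ∈ S i then phi r (nr i) else 0) ≤
      G x + k * (r * Δ / 2) := by
    refine (Finset.sum_le_sum hHy).trans ?_
    have h1 : ∀ y ∈ Y', G y / k + r * Δ / 2 ≤ G x / k + r * Δ / 2 := by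
      intro y hy
      have := hxmax y (hY'R y hy)
      gcongr
    refine (Finset.sum_le_sum h1).trans ?_
    rw [Finset.sum_const, nsmul_eq_mul]
    have h2 : 0 ≤ G x / k + r * Δ / 2 := by
      have := hG0 x hxR
      positivity
    calc _ ≤ (k:ℝ) * (G x / k + r * Δ / 2) := mul_le_mul_of_nonneg_right hY'k h2
      _ = _ := by field_simp
  rw [hold]
  have : (k:ℝ) * (r * Δ / 2) = (k:ℝ) * r * Δ / 2 := by ring
  linarith

end Pool.Agent.LatKK
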